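import Pool.Agent.N795.CZ.Ray
import Pool.Agent.V1148.Bor.K

/-!
# Borcea's inequality for polynomials with zeros on `m` rays and `m`-fold symmetry
-/

set_option autoImplicit false

open Polynomial Finset

namespace Pool.Agent.N795.CZ

open Pool.Agent.V1148.Bor

/-- the roots of one factor -/
theorem factor {m : ℕ} (hm : 0 < m) {ζ : ℂ} (hζ : IsPrimitiveRoot ζ m) (c α : ℂ) :
    ((X - C c) ^ m - C (α ^ m) : ℂ[X]) = ∏ i ∈ range m, (X - C (c + ζ ^ i * α)) := by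
  have h := X_pow_sub_C_eq_prod hζ hm (rfl : α ^ m = α ^ m)
  have h2 := congrArg (fun P : ℂ[X] => P.comp (X - C c)) h
  simp only [sub_comp, pow_comp, X_comp, C_comp, Polynomial.prod_comp] at h2
  rw [h2]
  refine Finset.prod_congr rfl fun i _ => ?_
  rw [C_add]
  ring

/-- the list of the roots -/
noncomputable def lst {l : ℕ} (m : ℕ) (ζ c α : ℂ) (R : Fin l → ℝ) : Multiset ℂ :=
  (univ ×ˢ range m).val.map fun q : Fin l × ℕ => c + ζ ^ q.2 * (α * R q.1)

theorem roots_eq {l m : ℕ} (hm : 0 < m) {ζ : ℂ} (hζ : IsPrimitiveRoot ζ m) (a c α : ℂ)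
    (ha : a ≠ 0) (R : Fin l → ℝ) :
    (C a * ∏ i, ((X - C c) ^ m - C ((α * R i) ^ m)) : ℂ[X]).roots = lst m ζ c α R := by
  rw [roots_C_mul _ ha]
  have h1 : (∏ i, ((X - C c) ^ m - C ((α * R i) ^ m)) : ℂ[X]) =
      ((lst m ζ c α R).map fun z => X - C z).prod := by
    rw [lst, Multiset.map_map]
    change _ = ∏ q ∈ univ ×ˢ range m, (X - C (c + ζ ^ q.2 * (α * R q.1)))
    rw [Finset.prod_product]
    exact Finset.prod_congr rfl fun i _ => factor hm hζ c _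
  rw [h1, roots_multiset_prod_X_sub_C]

theorem sum_lst {l m : ℕ} (ζ c α : ℂ) (R : Fin l → ℝ) (f : ℂ → ℝ) :
    ((lst m ζ c α R).map f).sum = ∑ i, ∑ j ∈ range m, f (c + ζ ^ j * (α * R i)) := by
  rw [lst, Multiset.map_map]
  change ∑ q ∈ univ ×ˢ range m, f (c + ζ ^ q.2 * (α * R q.1)) = _
  rw [Finset.sum_product]

theorem card_lst {l m : ℕ} (ζ c α : ℂ) (R : Fin l → ℝ) : (lst m ζ c α R).card = l * m := by
  rw [lst, Multiset.card_map]
  change (univ ×ˢ range m).card = _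
  rw [Finset.card_product, Finset.card_univ, Fintype.card_fin, Finset.card_range]

/-- symmetric points: lower bound of the sum of the distances -/
theorem sym_ge {m : ℕ} (hm : 2 ≤ m) {ζ : ℂ} (hζ : IsPrimitiveRoot ζ m) (c α c' : ℂ)
    (hα : ‖α‖ = 1) (ρ : ℝ) :
    (m : ℝ) * ρ ≤ ∑ j ∈ range m, ‖c + ζ ^ j * (α * ρ) - c'‖ := by
  have hζ1 : ‖ζ‖ = 1 := hζ.norm'_eq_one (by omega)
  have hα0 : α ≠ 0 := by rintro rfl; simp at hα
  have h1 : ∀ j, ‖(ζ ^ j)⁻¹ * (c + ζ ^ j * (α * ρ) - c')‖ = ‖c + ζ ^ j * (α * ρ) - c'‖ := by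
    intro j
    rw [norm_mul, norm_inv, norm_pow, hζ1, one_pow, inv_one, one_mul]
  have hsum : ∑ j ∈ range m, (ζ ^ j)⁻¹ = 0 := by
    have h2 := (hζ.inv).geom_sum_eq_zero (by omega)
    simpa only [inv_pow] using h2
  have hζ0 : ζ ≠ 0 := hζ.ne_zero (by omega)
  have h3 : ∑ j ∈ range m, (ζ ^ j)⁻¹ * (c + ζ ^ j * (α * ρ) - c') = m * (α * ρ) := by
    have e : ∀ j, (ζ ^ j)⁻¹ * (c + ζ ^ j * (α * ρ) - c') = (ζ ^ j)⁻¹ * (c - c') + α * ρ := by
      intro j
      have : ζ ^ j ≠ 0 := pow_ne_zero _ hζ0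
      field_simp
      ring
    simp only [e]
    rw [Finset.sum_add_distrib, ← Finset.sum_mul, hsum, zero_mul, zero_add, Finset.sum_const,
      card_range, nsmul_eq_mul]
  have h4 : ‖(m : ℂ) * (α * ρ)‖ ≤ ∑ j ∈ range m, ‖c + ζ ^ j * (α * ρ) - c'‖ := by
    rw [← h3]
    refine (norm_sum_le _ _).trans (le_of_eq ?_)
    exact Finset.sum_congr rfl fun j _ => h1 j
  rw [norm_mul, norm_mul, hα, one_mul, Complex.norm_natCast, Complex.norm_real,
    Real.norm_eq_abs] at h4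
  exact (mul_le_mul_of_nonneg_left (le_abs_self ρ) (Nat.cast_nonneg m)).trans h4

/-- critical points -/
theorem crit {l m : ℕ} (a c α : ℂ) (R : Fin l → ℝ) (w : ℂ) (y : ℝ)
    (hw : (w - c) ^ m = (α * y) ^ m)
    (h : (derivative (∏ j, (X - C (R j ^ m)) : ℝ[X])).eval (y ^ m) = 0) :
    (derivative (C a * ∏ i, ((X - C c) ^ m - C ((α * R i) ^ m)) : ℂ[X])).eval w = 0 := by
  rw [eval_deriv] at h
  rw [derivative_C_mul, derivative_prod_finset, eval_C_mul, eval_finset_sum]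
  have e : ∀ j : Fin l, eval w ((∏ i ∈ univ.erase j, ((X - C c) ^ m - C ((α * R i) ^ m) : ℂ[X])) *
      derivative ((X - C c) ^ m - C ((α * R j) ^ m))) =
      (m * (w - c) ^ (m - 1)) * ((α ^ m) ^ (l - 1) *
        ((∏ i ∈ univ.erase j, (y ^ m - R i ^ m) : ℝ) : ℂ)) := by
    intro j
    have hc : (univ.erase j : Finset (Fin l)).card = l - 1 := by
      rw [Finset.card_erase_of_mem (mem_univ j), Finset.card_univ, Fintype.card_fin]
    rw [eval_mul, eval_prod, derivative_sub, derivative_C, sub_zero, derivative_X_sub_C_pow,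
      Complex.ofReal_prod, ← hc, ← Finset.prod_const, ← Finset.prod_mul_distrib]
    simp only [eval_sub, eval_pow, eval_X, eval_C, eval_mul, eval_natCast]
    rw [mul_comm]
    congr 1
    refine Finset.prod_congr rfl fun i _ => ?_
    rw [hw]
    push_cast
    ring
  simp only [e]
  rw [← Finset.mul_sum, ← Finset.mul_sum, ← Complex.ofReal_sum, h, Complex.ofReal_zero]
  ring

theorem crit0 {l m : ℕ} (hm : 2 ≤ m) (a c α : ℂ) (R : Fin l → ℝ) :
    (derivative (C a * ∏ i, ((X - C c) ^ m - C ((α * R i) ^ m)) : ℂ[X])).eval c = 0 := by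
  rw [derivative_C_mul, derivative_prod_finset, eval_C_mul, eval_finset_sum]
  have e : ∀ j : Fin l, eval c ((∏ i ∈ univ.erase j, ((X - C c) ^ m - C ((α * R i) ^ m) : ℂ[X])) *
      derivative ((X - C c) ^ m - C ((α * R j) ^ m))) = 0 := by
    intro j
    rw [eval_mul, derivative_sub, derivative_C, sub_zero, derivative_X_sub_C_pow]
    simp only [eval_sub, eval_pow, eval_X, eval_C, eval_mul, eval_natCast, sub_self]
    rw [zero_pow (by omega)]
    ring
  simp only [e, Finset.sum_const_zero, mul_zero]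

/-- the polynomial -/
noncomputable def PF {l : ℕ} (m : ℕ) (a c α : ℂ) (R : Fin l → ℝ) : ℂ[X] :=
  C a * ∏ i, ((X - C c) ^ m - C ((α * R i) ^ m))

theorem exists_zeta {m : ℕ} (hm : 2 ≤ m) : ∃ ζ : ℂ, IsPrimitiveRoot ζ m :=
  ⟨_, Complex.isPrimitiveRoot_exp m (by omega)⟩

theorem deg {l m : ℕ} (hm : 2 ≤ m) {a c α : ℂ} (ha : a ≠ 0) (R : Fin l → ℝ) :
    (PF m a c α R).natDegree = l * m := by
  obtain ⟨ζ, hζ⟩ := exists_zeta hm
  rw [(IsAlgClosed.splits (PF m a c α R)).natDegree_eq_card_roots, PF,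
    roots_eq (by omega) hζ a c α ha R, card_lst]

theorem near_le {l m : ℕ} (hl : 1 ≤ l) (hm : 2 ≤ m) {a c α : ℂ} (ha : a ≠ 0) (hα : ‖α‖ = 1)
    (R : Fin l → ℝ) (hR : ∀ i, 0 ≤ R i) (z : ℂ) (hz : z ∈ (PF m a c α R).roots) :
    near (PF m a c α R) z ≤ (∑ i, R i) / l := by
  obtain ⟨ζ, hζ⟩ := exists_zeta hm
  have hζ1 : ‖ζ‖ = 1 := hζ.norm'_eq_one (by omega)
  have hl0 : (0 : ℝ) < l := by exact_mod_cast hl
  have hdeg := deg (α := α) (c := c) hm ha R
  have hd2 : 0 < (PF m a c α R).natDegree := by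
    rw [hdeg]
    have : 1 * 2 ≤ l * m := Nat.mul_le_mul hl hm
    omega
  have hd0 : derivative (PF m a c α R) ≠ 0 := by
    intro h
    have := natDegree_eq_zero_of_derivative_eq_zero h
    omega
  have hmem : ∀ w, (derivative (PF m a c α R)).eval w = 0 → near (PF m a c α R) z ≤ ‖z - w‖ := by
    intro w hw
    refine csInf_le ⟨0, ?_⟩ ⟨w, (mem_roots hd0).2 hw, rfl⟩
    rintro _ ⟨w, -, rfl⟩
    exact norm_nonneg _
  have hz' := hz
  rw [PF, roots_eq (by omega) hζ a c α ha R, lst, Multiset.mem_map] at hz'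
  obtain ⟨⟨k, j⟩, -, hzj⟩ := hz'
  simp only at hzj
  by_contra hcon
  rw [not_le] at hcon
  obtain ⟨M, hM⟩ : ∃ M, M = (∑ i, R i) / l := ⟨_, rfl⟩
  obtain ⟨N, hN⟩ : ∃ N, N = near (PF m a c α R) z := ⟨_, rfl⟩
  rw [← hM, ← hN] at hcon
  rw [← hN] at hmem
  have hM0 : 0 ≤ M := by
    rw [hM]
    exact div_nonneg (Finset.sum_nonneg fun i _ => hR i) hl0.le
  obtain ⟨r, hr⟩ : ∃ r, r = (M + N) / 2 := ⟨_, rfl⟩
  have hr1 : M < r := by rw [hr]; linarith
  have hr2 : r < N := by rw [hr]; linarith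
  have hr0 : 0 < r := by linarith
  have hnorm : ∀ y : ℝ, ‖ζ ^ j * (α * (y : ℂ))‖ = |y| := by
    intro y
    rw [norm_mul, norm_mul, norm_pow, hζ1, hα, one_pow, one_mul, one_mul, Complex.norm_real,
      Real.norm_eq_abs]
  have hkc : N ≤ R k := by
    have h1 := hmem c (crit0 hm a c α R)
    rwa [← hzj, add_sub_cancel_left, hnorm, abs_of_nonneg (hR k)] at h1
  have hex : ∃ i, R i < R k := by
    by_contra hno
    push Not at hno
    have h1 : (l : ℝ) * R k ≤ ∑ i, R i := by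
      have h2 : ∑ _i : Fin l, R k ≤ ∑ i, R i := Finset.sum_le_sum fun i _ => hno i
      rwa [Finset.sum_const, nsmul_eq_mul, Finset.card_univ, Fintype.card_fin] at h2
    have h2 : R k ≤ M := by
      rw [hM, le_div_iff₀ hl0]
      linarith
    linarith
  have h1 := ray_gap (m := m) (by omega) R hR k r hr0 (by linarith) (fun y hy1 hy2 h0 => by
    have h2 := hmem (c + ζ ^ j * (α * y)) (crit a c α R _ y (by
      rw [add_sub_cancel_left, mul_pow, ← pow_mul, mul_comm j m, pow_mul, hζ.pow_eq_one, one_pow,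
        one_mul]) h0)
    have e : z - (c + ζ ^ j * (α * y)) = ζ ^ j * (α * ((R k - y : ℝ) : ℂ)) := by
      rw [← hzj]; push_cast; ring
    rw [e, hnorm, abs_of_nonneg (by linarith)] at h2
    linarith) hex
  have h2 : r ≤ M := by
    rw [hM, le_div_iff₀ hl0]
    linarith
  linarith

theorem mean_le {l m : ℕ} (hl : 1 ≤ l) (hm : 2 ≤ m) {a c α : ℂ} (ha : a ≠ 0) (hα : ‖α‖ = 1)
    (R : Fin l → ℝ) : (∑ i, R i) / l ≤ sigma 1 (PF m a c α R) := by
  obtain ⟨ζ, hζ⟩ := exists_zeta hm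
  have hl0 : (0 : ℝ) < l := by exact_mod_cast hl
  have hm0 : (0 : ℝ) < m := by
    have : 0 < m := by omega
    exact_mod_cast this
  refine le_ciInf fun c' => ?_
  unfold pmean
  rw [deg hm ha R, PF, roots_eq (by omega) hζ a c α ha R, sum_lst]
  simp only [Real.rpow_one, div_one]
  have h1 : (m : ℝ) * ∑ i, R i ≤ ∑ i, ∑ j ∈ range m, ‖c + ζ ^ j * (α * R i) - c'‖ := by
    rw [Finset.mul_sum]
    exact Finset.sum_le_sum fun i _ => sym_ge hm hζ c α c' hα (R i)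
  push_cast
  rw [one_div, inv_mul_eq_div, div_le_div_iff₀ hl0 (by positivity)]
  nlinarith [mul_le_mul_of_nonneg_left h1 hl0.le]

/-- the theorem -/
theorem main {l m : ℕ} (hl : 1 ≤ l) (hm : 2 ≤ m) {a c α : ℂ} (ha : a ≠ 0) (hα : ‖α‖ = 1)
    (R : Fin l → ℝ) (hR : ∀ i, 0 ≤ R i) :
    (∀ p : ℝ, 1 ≤ p → hdist (PF m a c α R) ≤ sigma p (PF m a c α R)) ∧
    ∀ p : ℝ, 1 < p → (hdist (PF m a c α R) = sigma p (PF m a c α R) ↔ IsPure (PF m a c α R)) := by
  have hdeg := deg (α := α) (c := c) hm ha R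
  have hd2 : 2 ≤ (PF m a c α R).natDegree := by
    rw [hdeg]
    calc 2 = 1 * 2 := rfl
      _ ≤ l * m := Nat.mul_le_mul hl hm
  have h1 : hdist (PF m a c α R) ≤ sigma 1 (PF m a c α R) := by
    refine le_trans ?_ (mean_le hl hm ha hα R)
    obtain ⟨z0, hz0⟩ := exists_root hd2
    refine csSup_le ⟨_, z0, hz0, rfl⟩ ?_
    rintro _ ⟨z, hz, rfl⟩
    exact near_le hl hm ha hα R hR z hz
  refine ⟨fun p hp => h1.trans (sigma_mono (by omega) one_pos hp), fun p hp => ?_⟩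
  exact ⟨fun h => equality hd2 one_pos hp h1 h, fun h => pure_eq hd2 h hp.le⟩

end Pool.Agent.N795.CZ
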