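import Pool.Agent.N795.CZ.Real

/-!
# Zeros on rays: the real inequality
-/

set_option autoImplicit false

open Polynomial Finset

namespace Pool.Agent.N795.CZ

theorem ray_gap {l m : ℕ} (hm : 1 ≤ m) (R : Fin l → ℝ) (hR : ∀ i, 0 ≤ R i) (k : Fin l) (r : ℝ)
    (hr : 0 < r) (hrk : r < R k)
    (hcrit : ∀ y : ℝ, R k - r ≤ y → y ≤ R k →
      (derivative (∏ j, (X - C (R j ^ m)))).eval (y ^ m) ≠ 0)
    (hb : ∃ j, R j < R k) : (l : ℝ) * r ≤ ∑ i, R i := by
  classical
  have hm0 : m ≠ 0 := by omega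
  have hmR : (m : ℝ) ≠ 0 := by exact_mod_cast hm0
  have h0 : 0 < R k - r := by linarith
  obtain ⟨s, hs⟩ : ∃ s, s = R k ^ m - (R k - r) ^ m := ⟨_, rfl⟩
  have hs0 : 0 < s := by
    have : (R k - r) ^ m < R k ^ m := pow_lt_pow_left₀ (by linarith) h0.le hm0
    rw [hs]; linarith
  have hL := left (fun j => R j ^ m) k s hs0 (fun y' h1 h2 => by
    have h1' : (R k - r) ^ m ≤ y' := by rw [hs] at h1; linarith
    have hy0 : 0 ≤ y' := le_trans (pow_nonneg h0.le m) h1'
    obtain ⟨y, hy⟩ : ∃ y, y = y' ^ ((m : ℝ)⁻¹) := ⟨_, rfl⟩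
    have hyn : 0 ≤ y := by rw [hy]; positivity
    have hym : y ^ m = y' := by rw [hy]; exact Real.rpow_inv_natCast_pow hy0 hm0
    rw [← hym]
    refine hcrit y ?_ ?_
    · rw [← hym] at h1'
      exact (pow_le_pow_iff_left₀ h0.le hyn hm0).1 h1'
    · rw [← hym] at h2
      exact (pow_le_pow_iff_left₀ hyn (hR k) hm0).1 h2)
  have hfil : (univ.filter fun j => R j ^ m < R k ^ m) = univ.filter fun j => R j < R k := by
    ext j
    simp only [Finset.mem_filter, mem_univ, true_and]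
    exact pow_lt_pow_iff_left₀ (hR j) (hR k) hm0
  rw [hfil] at hL
  obtain ⟨B, hB⟩ : ∃ B : Finset (Fin l), B = univ.filter fun j => R j < R k := ⟨_, rfl⟩
  rw [← hB] at hL
  have mB : ∀ j, j ∈ B ↔ R j < R k := by intro j; rw [hB]; simp
  obtain ⟨j0, hj0⟩ := hb
  have hbc : 0 < B.card := Finset.card_pos.2 ⟨j0, (mB j0).2 hj0⟩
  obtain ⟨b, hbdef⟩ : ∃ b : ℝ, b = (B.card : ℝ) := ⟨_, rfl⟩
  have hb0 : 0 < b := by rw [hbdef]; exact_mod_cast hbc
  have hle : B.card ≤ l := (Finset.card_le_univ B).trans (by simp)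
  have hbl : b ≤ l := by rw [hbdef]; exact_mod_cast hle
  have hl0 : (0 : ℝ) < l := hb0.trans_le hbl
  have hcardc : ((Bᶜ).card : ℝ) = (l : ℝ) - b := by
    rw [Finset.card_compl, Fintype.card_fin, Nat.cast_sub hle, hbdef]
  rw [← hbdef] at hL
  -- the mean
  obtain ⟨z, hz⟩ : ∃ z : Fin l → ℝ, z = fun j => (b * R k + (l - b) * R j) / l := ⟨_, rfl⟩
  have hz0 : ∀ j, 0 ≤ z j := fun j => by
    rw [hz]
    exact div_nonneg (add_nonneg (mul_nonneg hb0.le (hR k)) (mul_nonneg (by linarith) (hR j)))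
      hl0.le
  have hzm : ∀ j, z j ^ m ≤ (b * R k ^ m + (l - b) * R j ^ m) / l := by
    intro j
    have h1 := (convexOn_pow m).2 (Set.mem_Ici.2 (hR k)) (Set.mem_Ici.2 (hR j))
      (div_nonneg hb0.le hl0.le) (div_nonneg (by linarith : (0:ℝ) ≤ l - b) hl0.le)
      (by field_simp; ring)
    simp only [smul_eq_mul] at h1
    have e1 : z j = b / l * R k + (l - b) / l * R j := by rw [hz]; field_simp
    rw [e1]
    refine h1.trans (le_of_eq ?_)
    field_simp
  have hJ := Real.pow_arith_mean_le_arith_mean_pow B (fun _ => 1 / b) z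
    (fun _ _ => by positivity) (by
      rw [Finset.sum_const, nsmul_eq_mul, ← hbdef]
      field_simp) (fun j _ => hz0 j) m
  rw [← Finset.mul_sum, ← Finset.mul_sum] at hJ
  have h5 : ∑ j ∈ B, z j ^ m ≤ b * R k ^ m - (l - b) / l * ∑ j ∈ B, (R k ^ m - R j ^ m) := by
    refine (Finset.sum_le_sum fun j _ => hzm j).trans (le_of_eq ?_)
    rw [← Finset.sum_div, Finset.sum_add_distrib, Finset.sum_const, nsmul_eq_mul, ← hbdef,
      ← Finset.mul_sum, Finset.sum_sub_distrib, Finset.sum_const, nsmul_eq_mul, ← hbdef]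
    field_simp
    ring
  have h6 : b * s ≤ (l - b) / l * ∑ j ∈ B, (R k ^ m - R j ^ m) := by
    rw [div_mul_eq_mul_div, le_div_iff₀ hl0]
    calc b * s * l = b * l * s := by ring
      _ ≤ _ := hL
  have h7 : (1 / b * ∑ j ∈ B, z j) ^ m ≤ (R k - r) ^ m := by
    refine hJ.trans ?_
    have h8 : ∑ j ∈ B, z j ^ m ≤ b * (R k - r) ^ m := by
      have : b * (R k - r) ^ m = b * R k ^ m - b * s := by rw [hs]; ring
      rw [this]
      linarith
    rw [one_div, inv_mul_le_iff₀ hb0]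
    exact h8
  have hzs : 0 ≤ 1 / b * ∑ j ∈ B, z j :=
    mul_nonneg (by positivity) (Finset.sum_nonneg fun j _ => hz0 j)
  have h9 : 1 / b * ∑ j ∈ B, z j ≤ R k - r := (pow_le_pow_iff_left₀ hzs h0.le hm0).1 h7
  have h10 : b * R k * b / l ≤ ∑ j ∈ B, z j := by
    have h11 : ∑ _j ∈ B, b * R k / l ≤ ∑ j ∈ B, z j := by
      refine Finset.sum_le_sum fun j _ => ?_
      rw [hz]
      exact div_le_div_of_nonneg_right (by
        have := mul_nonneg (by linarith : (0:ℝ) ≤ l - b) (hR j)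
        linarith) hl0.le
    rw [Finset.sum_const, nsmul_eq_mul, ← hbdef] at h11
    calc b * R k * b / l = b * (b * R k / l) := by ring
      _ ≤ _ := h11
  have h12 : b * R k / l ≤ R k - r := by
    refine le_trans ?_ h9
    rw [one_div, le_inv_mul_iff₀ hb0]
    calc b * (b * R k / l) = b * R k * b / l := by ring
      _ ≤ _ := h10
  have h13 : (l : ℝ) * r ≤ (l - b) * R k := by
    rw [div_le_iff₀ hl0] at h12
    linarith
  have h14 : ((l : ℝ) - b) * R k ≤ ∑ i ∈ Bᶜ, R i := by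
    rw [← hcardc, ← nsmul_eq_mul, ← Finset.sum_const]
    refine Finset.sum_le_sum fun i hi => ?_
    rw [Finset.mem_compl, mB, not_lt] at hi
    exact hi
  have h15 : ∑ i ∈ Bᶜ, R i ≤ ∑ i, R i :=
    Finset.sum_le_sum_of_subset_of_nonneg (Finset.subset_univ _) fun i _ _ => hR i
  linarith

end Pool.Agent.N795.CZ
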