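import Mathlib

/-!
# Critical points of real rooted polynomials near a zero
-/

set_option autoImplicit false

open Polynomial Finset

namespace Pool.Agent.N795.CZ

/-- the derivative of a product of linear factors at a point -/
theorem eval_deriv {K : Type} [Field K] {n : ℕ} (x : Fin n → K) (t : K) :
    (derivative (∏ j, (X - C (x j)))).eval t = ∑ j, ∏ i ∈ univ.erase j, (t - x i) := by
  rw [Polynomial.derivative_prod_finset, eval_finset_sum]
  refine Finset.sum_congr rfl fun j _ => ?_
  rw [derivative_X_sub_C, mul_one, eval_prod]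
  simp

theorem log_deriv {n : ℕ} (x : Fin n → ℝ) (t : ℝ) (ht : ∀ j, t - x j ≠ 0) :
    (derivative (∏ j, (X - C (x j)))).eval t / (∏ j, (X - C (x j))).eval t =
      ∑ j, 1 / (t - x j) := by
  rw [eval_deriv, Finset.sum_div, eval_prod]
  refine Finset.sum_congr rfl fun j _ => ?_
  simp only [eval_sub, eval_X, eval_C]
  rw [← Finset.mul_prod_erase univ (fun i => t - x i) (mem_univ j)]
  have h1 : ∏ i ∈ univ.erase j, (t - x i) ≠ 0 := Finset.prod_ne_zero_iff.2 fun i _ => ht i
  have h2 := ht j
  field_simp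

/-- left of a zero: the zeros to the left are far away on average if there is no critical point -/
theorem left {n : ℕ} (x : Fin n → ℝ) (k : Fin n) (s : ℝ) (hs : 0 < s)
    (hcrit : ∀ y : ℝ, x k - s ≤ y → y ≤ x k → (derivative (∏ j, (X - C (x j)))).eval y ≠ 0) :
    ((univ.filter fun j => x j < x k).card : ℝ) * n * s ≤
      ((n : ℝ) - (univ.filter fun j => x j < x k).card) *
        ∑ j ∈ univ.filter (fun j => x j < x k), (x k - x j) := by
  classical
  obtain ⟨P, hP⟩ : ∃ P : ℝ[X], P = ∏ j, (X - C (x j)) := ⟨_, rfl⟩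
  rw [← hP] at hcrit
  obtain ⟨t, ht⟩ : ∃ t, t = x k - s := ⟨_, rfl⟩
  have htk : t < x k := by rw [ht]; linarith
  -- constant sign of the derivative
  have hsgn : ∀ y, t ≤ y → y ≤ x k → 0 < P.derivative.eval y * P.derivative.eval (x k) := by
    intro y hy1 hy2
    by_contra hcon
    rw [not_lt] at hcon
    have h0 : (0 : ℝ) ∈ Set.uIcc (P.derivative.eval y) (P.derivative.eval (x k)) := by
      rw [Set.mem_uIcc]
      rcases mul_nonpos_iff.1 hcon with h | h
      · right; exact ⟨h.2, h.1⟩
      · left; exact ⟨h.1, h.2⟩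
    obtain ⟨z, hz, hz0⟩ := intermediate_value_uIcc
      (P.derivative.continuous.continuousOn (s := Set.uIcc y (x k))) h0
    rw [Set.uIcc_of_le hy2] at hz
    exact hcrit z (by linarith [hz.1]) hz.2 hz0
  have hmono : StrictMonoOn (fun y => P.eval y * P.derivative.eval (x k)) (Set.Icc t (x k)) := by
    refine strictMonoOn_of_deriv_pos (convex_Icc _ _)
      ((P.continuous.mul continuous_const).continuousOn) fun y hy => ?_
    rw [interior_Icc] at hy
    have h1 : HasDerivAt (fun y => P.eval y * P.derivative.eval (x k))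
        (P.derivative.eval y * P.derivative.eval (x k)) y := (P.hasDerivAt y).mul_const _
    rw [h1.deriv]
    exact hsgn y hy.1.le hy.2.le
  have hPk : P.eval (x k) = 0 := by
    rw [hP, eval_prod]
    exact Finset.prod_eq_zero (mem_univ k) (by simp)
  have hneg : ∀ y, t ≤ y → y < x k → P.eval y * P.derivative.eval (x k) < 0 := by
    intro y h1 h2
    have := hmono ⟨h1, h2.le⟩ ⟨htk.le, le_rfl⟩ h2
    simp only [hPk, zero_mul] at this
    exact this
  have hne : ∀ y, t ≤ y → y < x k → P.eval y ≠ 0 := by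
    intro y h1 h2 h3
    have := hneg y h1 h2
    rw [h3, zero_mul] at this
    exact lt_irrefl _ this
  -- zeros to the left are left of `t`
  have hB : ∀ j, x j < x k → x j < t := by
    intro j hj
    by_contra hcon
    rw [not_lt] at hcon
    refine hne (x j) hcon hj ?_
    rw [hP, eval_prod]
    exact Finset.prod_eq_zero (mem_univ j) (by simp)
  have htj : ∀ j, t - x j ≠ 0 := by
    intro j h0
    rcases lt_or_ge (x j) (x k) with h | h
    · have := hB j h; linarith
    · linarith
  have hlog : ∑ j, 1 / (t - x j) < 0 := by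
    rw [← log_deriv x t htj, ← hP]
    have h1 := hsgn t le_rfl htk.le
    have h2 := hneg t le_rfl htk
    have h3 : P.derivative.eval t / P.eval t =
        (P.derivative.eval t * P.derivative.eval (x k)) /
          (P.eval t * P.derivative.eval (x k)) := by
      have : P.derivative.eval (x k) ≠ 0 := hcrit (x k) (by linarith) le_rfl
      rw [mul_div_mul_right _ _ this]
    rw [h3]
    exact div_neg_of_pos_of_neg h1 h2
  obtain ⟨B, hBdef⟩ : ∃ B : Finset (Fin n), B = univ.filter fun j => x j < x k := ⟨_, rfl⟩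
  rw [← hBdef]
  have hmem : ∀ j, j ∈ B ↔ x j < x k := by intro j; rw [hBdef]; simp
  have hcardc : ((Bᶜ).card : ℝ) = (n : ℝ) - B.card := by
    rw [Finset.card_compl, Fintype.card_fin, Nat.cast_sub]
    exact (Finset.card_le_univ B).trans (by simp)
  have hsplit : ∑ j, 1 / (t - x j) = ∑ j ∈ B, 1 / (t - x j) + ∑ j ∈ Bᶜ, 1 / (t - x j) :=
    (Finset.sum_add_sum_compl B _).symm
  have hright : -((n : ℝ) - B.card) / s ≤ ∑ j ∈ Bᶜ, 1 / (t - x j) := by
    have h1 : ∑ _j ∈ Bᶜ, (-1 / s) ≤ ∑ j ∈ Bᶜ, 1 / (t - x j) := by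
      refine Finset.sum_le_sum fun j hj => ?_
      have h2 : x k ≤ x j := by
        rw [Finset.mem_compl, hmem, not_lt] at hj
        exact hj
      have h3 : s ≤ x j - t := by rw [ht]; linarith
      have h4 : 1 / (x j - t) ≤ 1 / s := one_div_le_one_div_of_le hs h3
      have h5 : 1 / (t - x j) = -(1 / (x j - t)) := by
        rw [← neg_sub (x j) t, one_div_neg_eq_neg_one_div]
      rw [h5, neg_div]
      linarith
    rw [Finset.sum_const, nsmul_eq_mul, hcardc] at h1
    calc -((n : ℝ) - B.card) / s = ((n : ℝ) - B.card) * (-1 / s) := by ring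
      _ ≤ _ := h1
  have hT : ∑ j ∈ B, 1 / (t - x j) ≤ ((n : ℝ) - B.card) / s := by
    have : -((n : ℝ) - B.card) / s = -(((n : ℝ) - B.card) / s) := neg_div _ _
    linarith
  -- Cauchy-Schwarz
  have hCS : ((B.card : ℝ)) ^ 2 ≤ (∑ j ∈ B, 1 / (t - x j)) * ∑ j ∈ B, (t - x j) := by
    have h1 := Finset.sum_sq_le_sum_mul_sum_of_sq_eq_mul B (r := fun _ => (1 : ℝ))
      (f := fun j => 1 / (t - x j)) (g := fun j => t - x j)
      (fun j hj => by
        have := hB j ((hmem j).1 hj)
        exact (one_div_pos.2 (by linarith)).le)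
      (fun j hj => by
        have := hB j ((hmem j).1 hj)
        linarith)
      (fun j hj => by
        have := htj j
        field_simp)
    simpa using h1
  have hU0 : 0 ≤ ∑ j ∈ B, (t - x j) := Finset.sum_nonneg fun j hj => by
    have := hB j ((hmem j).1 hj)
    linarith
  have hV : ∑ j ∈ B, (x k - x j) = ∑ j ∈ B, (t - x j) + B.card * s := by
    rw [← nsmul_eq_mul, ← Finset.sum_const, ← Finset.sum_add_distrib]
    refine Finset.sum_congr rfl fun j _ => ?_
    rw [ht]; ring
  obtain ⟨U, hU⟩ : ∃ U, U = ∑ j ∈ B, (t - x j) := ⟨_, rfl⟩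
  rw [hV, ← hU]
  rw [← hU] at hCS hU0
  have h1 : ((B.card : ℝ)) ^ 2 * s ≤ ((n : ℝ) - B.card) * U := by
    have h2 : ((B.card : ℝ)) ^ 2 ≤ ((n : ℝ) - B.card) / s * U :=
      hCS.trans (mul_le_mul_of_nonneg_right hT hU0)
    have h3 := mul_le_mul_of_nonneg_right h2 hs.le
    calc ((B.card : ℝ)) ^ 2 * s ≤ ((n : ℝ) - B.card) / s * U * s := h3
      _ = ((n : ℝ) - B.card) * U := by field_simp
  nlinarith [h1]

end Pool.Agent.N795.CZ
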